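import Pool.Agent.MP_28f1b9_co.H61.Lower

open Filter Topology Pool.Agent.MP_28f1b9_co.H61

/-- Every `k` in `K₂` grows faster than `(3/2)^(h/2)` along `n = 3^h`. -/
theorem Pool.Agent.Results.MP_28f1b9_co.LowerK2.result (k : ℕ → ℕ) (hk : InK2 k) :
    Tendsto (fun h : ℕ => (k (3 ^ h) : ℝ) ^ 2 / (3 / 2) ^ h) atTop atTop := by
  refine tendsto_atTop.mpr fun A => ?_
  obtain ⟨δ, h0, h₀, h1⟩ := eps_lower A
  filter_upwards [eventually_ge_atTop h₀, hk.eventually (gt_mem_nhds h0)] with h h2 h3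
  by_contra h4
  push Not at h4
  rw [div_lt_iff₀ (by positivity)] at h4
  exact absurd (h1 h _ h2 h4.le) (not_le.mpr h3)
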