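import Pool.Agent.MP_28f1b9_co.H61.Upper

open Filter Topology Pool.Agent.MP_28f1b9_co.H61

/-- Exponential decay of epsilon beyond the scale `(3/2)^h`; in particular every `k` growing faster
than `(3/2)^h` along `n = 3^h` lies in `K₂`. -/
theorem Pool.Agent.Results.MP_28f1b9_co.UpperK2.result :
    (∀ h k : ℕ, eps (R h) k (1 / 2) ≤ 2 ^ 17 * (2 : ℝ) ^ (-((k : ℝ) / (64 * (3 / 2) ^ h)))) ∧
    ∀ k : ℕ → ℕ, Tendsto (fun h : ℕ => (k (3 ^ h) : ℝ) / (3 / 2) ^ h) atTop atTop → InK2 k := by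
  have main : ∀ h k : ℕ,
      eps (R h) k (1 / 2) ≤ 2 ^ 17 * (2 : ℝ) ^ (-((k : ℝ) / (64 * (3 / 2) ^ h))) := by
    intro h k
    have q0 : (0 : ℝ) < (3 / 2) ^ h := by positivity
    set y : ℝ := (k : ℝ) / (64 * (3 / 2) ^ h) with hy
    have ky : (k : ℝ) = y * (64 * (3 / 2) ^ h) := by rw [hy]; field_simp
    have e17 : (2 : ℝ) ^ 17 * (2 : ℝ) ^ (-y) = (2 : ℝ) ^ (17 - y) := by
      rw [sub_eq_add_neg, Real.rpow_add (by norm_num)]
      norm_num
    rw [e17]
    by_cases hy15 : y < 15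
    · have h1 : eps (R h) k (1 / 2) ≤ 1 := by
        have h1 := csSup_le (vals_nonempty (R h) k) fun t ht => (vals_bound ht).2
        have h2 := le_csInf (vals_nonempty (R h) k) fun t ht => (vals_bound ht).1
        unfold eps
        linarith
      exact h1.trans (Real.one_le_rpow (by norm_num) (by linarith))
    · push Not at hy15
      set s := ⌊y - 14⌋₊ with hs
      have s1 : (s : ℝ) ≤ y - 14 := Nat.floor_le (by linarith)
      have s2 : y - 14 < s + 1 := Nat.lt_floor_add_one _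
      have s3 : 1 ≤ s := Nat.le_floor (by push_cast; linarith)
      refine (eps_le s3 (by rw [ky]; nlinarith)).trans ?_
      have e : (4 : ℝ) / 2 ^ s = (2 : ℝ) ^ ((2 : ℝ) - s) := by
        rw [Real.rpow_sub (by norm_num), Real.rpow_natCast]
        norm_num
      rw [e]
      exact Real.rpow_le_rpow_of_exponent_le (by norm_num) (by linarith)
  refine ⟨main, fun k hk => ?_⟩
  refine squeeze_zero (fun h => eps_nonneg _ _) (fun h => main h _) ?_
  have h1 : Tendsto (fun h : ℕ => -((k (3 ^ h) : ℝ) / (64 * (3 / 2) ^ h))) atTop atBot := by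
    refine tendsto_neg_atTop_atBot.comp ?_
    refine (hk.atTop_div_const (show (0 : ℝ) < 64 by norm_num)).congr fun h => ?_
    rw [div_div, mul_comm]
  simpa using ((tendsto_rpow_atBot_of_base_gt_one 2 (by norm_num)).comp h1).const_mul (2 ^ 17)
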